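import Mathlib

/-!
# Project KT (helper24): `ex(n, K_{3,3}, K_{2,4}) = (1/12 + o(1)) n²` (MP_63048f_co, `t = 3`)

Statements of the jobs.
-/

set_option autoImplicit false

namespace Pool.Agent.K7.H24.KT

open Finset Filter Topology

/-- `ex(n, K_{t,t}, K_{2,t+1})` -/
noncomputable def N (t n : ℕ) : ℕ :=
  sSup {c | ∃ G : SimpleGraph (Fin n),
    (completeBipartiteGraph (Fin 2) (Fin (t + 1))).Free G ∧
      c = G.copyCount (completeBipartiteGraph (Fin t) (Fin t))}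

/-- ordered complete bipartite pairs: `|A| = |B| = t`, all of `A` adjacent to all of `B` -/
def IsBi {V : Type} (t : ℕ) (G : SimpleGraph V) (P : Finset V × Finset V) : Prop :=
  P.1.card = t ∧ P.2.card = t ∧ ∀ a ∈ P.1, ∀ b ∈ P.2, G.Adj a b

/-- the number of ordered complete bipartite pairs -/
noncomputable def bi {V : Type} [Fintype V] (t : ℕ) (G : SimpleGraph V) : ℕ :=
  by classical exact (univ.filter (fun P : Finset V × Finset V => IsBi t G P)).card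

/-- any two different vertices have at most `t` common neighbours -/
def Cod {V : Type} (t : ℕ) (G : SimpleGraph V) : Prop :=
  ∀ u v : V, u ≠ v → ∀ S : Finset V, (∀ x ∈ S, G.Adj u x ∧ G.Adj v x) → S.card ≤ t

/-- COPY -/
def StCopy : Prop := ∀ (V : Type) [Fintype V] (t : ℕ), 1 ≤ t → ∀ G : SimpleGraph V,
  bi t G = 2 * G.copyCount (completeBipartiteGraph (Fin t) (Fin t))

/-- FREE -/
def StFree : Prop := ∀ (V : Type) [Fintype V] (t : ℕ) (G : SimpleGraph V),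
  (completeBipartiteGraph (Fin 2) (Fin (t + 1))).Free G ↔ Cod t G

/-- MAP: a graph on a finite type can be placed on `Fin n`, `n ≥ |Q|` -/
def StMap : Prop := ∀ (Q : Type) [Fintype Q] (t n : ℕ), Fintype.card Q ≤ n → 1 ≤ t →
  ∀ G : SimpleGraph Q, Cod t G →
    ∃ G' : SimpleGraph (Fin n), Cod t G' ∧ bi t G ≤ bi t G'

/-- UPPER: every ordered pair of different vertices lies in the first class of at most one pair -/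
def StUpper : Prop := ∀ (n t : ℕ), 2 ≤ t → ∀ G : SimpleGraph (Fin n), Cod t G →
  bi t G * (t * (t - 1)) ≤ n * (n - 1)

/-- PRIME: primes `1 mod 3` in short intervals (Siegel-Walfisz is in the library) -/
def StPrime : Prop := ∀ ε : ℝ, 0 < ε → ∀ᶠ x : ℝ in atTop,
  ∃ p : ℕ, p.Prime ∧ p % 3 = 1 ∧ (1 - ε) * x ≤ p ∧ (p : ℝ) ≤ x

section field

variable {F : Type} [Field F]

/-- auxiliary quantities; `w` is a primitive cube root of unity -/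
def qa (w x₁ x₂ : F) (k : ℕ) : F := w ^ k * x₂ - x₁
def qb (w y₁ y₂ : F) (k : ℕ) : F := y₁ - w ^ (3 - k) * y₂
def qc (w x₁ y₁ x₂ y₂ : F) (k : ℕ) : F := w ^ (3 - k) * x₁ * y₂ - w ^ k * x₂ * y₁
def q0 (x₁ y₁ x₂ y₂ : F) : F := x₁ * y₁ - x₂ * y₂
def q1 (x₁ y₁ x₂ y₂ : F) : F := x₂ ^ 2 * y₁ - x₁ ^ 2 * y₂
def q2 (x₁ y₁ x₂ y₂ : F) : F := x₁ * y₂ ^ 2 - x₂ * y₁ ^ 2

/-- the pair of points `(x₁,y₁)`, `(x₂,y₂)` is generic -/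
def Good (w x₁ y₁ x₂ y₂ : F) : Prop :=
  (∀ k < 3, qa w x₁ x₂ k ≠ 0) ∧ (∀ k < 3, qb w y₁ y₂ k ≠ 0) ∧
  (∀ k < 3, qc w x₁ y₁ x₂ y₂ k ≠ 0) ∧
  q0 x₁ y₁ x₂ y₂ ≠ 0 ∧ q1 x₁ y₁ x₂ y₂ ≠ 0 ∧ q2 x₁ y₁ x₂ y₂ ≠ 0 ∧
  (∀ k < 3, ∀ l < k, qa w x₁ x₂ k * qb w y₁ y₂ k * qc w x₁ y₁ x₂ y₂ l ^ 2 ≠
    qa w x₁ x₂ l * qb w y₁ y₂ l * qc w x₁ y₁ x₂ y₂ k ^ 2) ∧
  (∀ k < 3, qa w x₁ x₂ k * qb w y₁ y₂ k ≠ x₁ * y₁ * qc w x₁ y₁ x₂ y₂ k ^ 2) ∧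
  (∀ k < 3, qa w x₁ x₂ k * qb w y₁ y₂ k ≠ x₂ * y₂ * qc w x₁ y₁ x₂ y₂ k ^ 2) ∧
  q1 x₁ y₁ x₂ y₂ * q2 x₁ y₁ x₂ y₂ ≠ x₁ * y₁ * q0 x₁ y₁ x₂ y₂ ^ 2 ∧
  q1 x₁ y₁ x₂ y₂ * q2 x₁ y₁ x₂ y₂ ≠ x₂ * y₂ * q0 x₁ y₁ x₂ y₂ ^ 2 ∧
  (∀ k < 3, q1 x₁ y₁ x₂ y₂ * q2 x₁ y₁ x₂ y₂ * qc w x₁ y₁ x₂ y₂ k ^ 2 ≠
    qa w x₁ x₂ k * qb w y₁ y₂ k * q0 x₁ y₁ x₂ y₂ ^ 2)

end field

/-- BAD: all but `100 |F|³` of the quadruples are generic. Every condition fails for few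
values of one coordinate when the three others are fixed (leading coefficients in `y₂` are
monomials, except in two cases, where they vanish for few `x₂`). -/
def StBad : Prop := ∀ (F : Type) [Field F] [Fintype F] (w : F), w ^ 2 + w + 1 = 0 → w ≠ 1 →
  ∀ S : Finset (Fˣ × Fˣ × Fˣ × Fˣ),
    (∀ q ∈ S, ¬ Good w (q.1 : F) (q.2.1 : F) (q.2.2.1 : F) (q.2.2.2 : F)) →
      S.card ≤ 100 * Fintype.card F ^ 3

/-- PLANE: the quotient of the plane by the map of order three -/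
def StPlane : Prop := ∀ p : ℕ, p.Prime → p % 3 = 1 →
  ∃ (Q : Type) (_ : Fintype Q) (G : SimpleGraph Q), 3 * Fintype.card Q = (p - 1) ^ 2 ∧
    Cod 3 G ∧ (p - 1) ^ 4 ≤ 54 * bi 3 G + 100 * p ^ 3

/-- LOW (from MAP, PLANE, PRIME): the lower bound -/
def StLow : Prop := ∀ ε : ℝ, 0 < ε → ∀ᶠ n : ℕ in atTop,
  ∃ G : SimpleGraph (Fin n), Cod 3 G ∧ (1 / 6 - ε) * (n : ℝ) ^ 2 ≤ bi 3 G

/-- FINAL (from COPY, FREE, UPPER, LOW) -/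
def StFinal : Prop := Tendsto (fun n : ℕ => (N 3 n : ℝ) / (n : ℝ) ^ 2) atTop (𝓝 (1 / 12))

end Pool.Agent.K7.H24.KT
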