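import Mathlib
import Pool.Agent.K7.H24.KT.Stm

/-!
# Project KT, job PLANE: the quotient of the plane by the map of order three
-/

set_option autoImplicit false

namespace Pool.Agent.K7.H24.KT

open Finset

section

variable {F : Type} [Field F]

/-- the bilinear form -/
def Bf (u w : Fˣ × Fˣ) : F := 1 + (u.1 : F) * (w.2 : F) + (u.2 : F) * (w.1 : F)

lemma Bf_comm (u w : Fˣ × Fˣ) : Bf u w = Bf w u := by
  unfold Bf; ring

lemma Bf_lin {u v w w' : Fˣ × Fˣ} (huv : u ≠ v) (h1 : Bf u w = 0) (h2 : Bf v w = 0)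
    (h3 : Bf u w' = 0) (h4 : Bf v w' = 0) : w = w' := by
  unfold Bf at h1 h2 h3 h4
  have hD : (u.1 : F) * v.2 - (u.2 : F) * v.1 ≠ 0 := by
    intro hD
    apply huv
    have e1 : (u.1 : F) = v.1 := by
      linear_combination (-(v.1 : F)) * h1 + (u.1 : F) * h2 - (w.1 : F) * hD
    have e2 : (u.2 : F) = v.2 := by
      linear_combination (-(v.2 : F)) * h1 + (u.2 : F) * h2 + (w.2 : F) * hD
    exact Prod.ext (Units.ext e1) (Units.ext e2)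
  have e1 : ((u.1 : F) * v.2 - (u.2 : F) * v.1) * ((w.2 : F) - w'.2) = 0 := by
    linear_combination (v.2 : F) * (h1 - h3) - (u.2 : F) * (h2 - h4)
  have e2 : ((u.1 : F) * v.2 - (u.2 : F) * v.1) * ((w.1 : F) - w'.1) = 0 := by
    linear_combination (-(v.1 : F)) * (h1 - h3) + (u.1 : F) * (h2 - h4)
  have e1' := (mul_eq_zero.1 e1).resolve_left hD
  have e2' := (mul_eq_zero.1 e2).resolve_left hD
  exact Prod.ext (Units.ext (sub_eq_zero.1 e2')) (Units.ext (sub_eq_zero.1 e1'))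

variable (ω : Fˣ)

/-- the generator of the group of order three -/
def zz : Fˣ × Fˣ := (ω, ω⁻¹)

lemma zz_pow (k : ℕ) : zz ω ^ k = (ω ^ k, (ω⁻¹) ^ k) := by
  unfold zz; rw [Prod.pow_mk]

lemma zz_three (h : ω ^ 3 = 1) : zz ω ^ 3 = 1 := by
  rw [zz_pow, inv_pow, h, inv_one]; rfl

lemma Bf_zz (k : ℕ) (u w : Fˣ × Fˣ) : Bf (u * zz ω ^ k) (w * zz ω ^ k) = Bf u w := by
  unfold Bf
  rw [zz_pow]
  simp only [Prod.fst_mul, Prod.snd_mul, Units.val_mul, Units.val_pow_eq_pow_val, inv_pow]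
  have h : ((ω : F) ^ k) * (((ω ^ k)⁻¹ : Fˣ) : F) = 1 := by
    rw [← Units.val_pow_eq_pow_val, Units.mul_inv]
  linear_combination ((u.1 : F) * w.2 + (u.2 : F) * w.1) * h

/-- the vertex set -/
abbrev QQ : Type := (Fˣ × Fˣ) ⧸ Subgroup.zpowers (zz ω)

/-- the class of a point -/
def cl (u : Fˣ × Fˣ) : QQ ω := QuotientGroup.mk u

lemma cl_surj (a : QQ ω) : ∃ u, cl ω u = a := QuotientGroup.mk_surjective a

lemma cl_mul (u : Fˣ × Fˣ) (k : ℕ) : cl ω (u * zz ω ^ k) = cl ω u := by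
  unfold cl
  rw [QuotientGroup.eq]
  have : (u * zz ω ^ k)⁻¹ * u = (zz ω ^ k)⁻¹ := by
    rw [mul_inv_rev, mul_assoc, inv_mul_cancel, mul_one]
  rw [this]
  exact Subgroup.inv_mem _ (Subgroup.pow_mem _ (Subgroup.mem_zpowers _) _)

lemma cl_eq (h3 : ω ^ 3 = 1) {u v : Fˣ × Fˣ} (h : cl ω u = cl ω v) :
    ∃ k < 3, v = u * zz ω ^ k := by
  unfold cl at h
  rw [QuotientGroup.eq, Subgroup.mem_zpowers_iff] at h
  obtain ⟨m, hm⟩ := h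
  have h0 := zz_three ω h3
  refine ⟨(m % 3).toNat, by omega, ?_⟩
  have h1 : zz ω ^ (m % 3).toNat = zz ω ^ m := by
    rw [← zpow_natCast, Int.toNat_of_nonneg (by omega)]
    conv_rhs => rw [← Int.emod_add_mul_ediv m 3]
    rw [zpow_add, zpow_mul]
    have : zz ω ^ (3 : ℤ) = 1 := by exact_mod_cast h0
    rw [this, one_zpow, mul_one]
  rw [h1, hm, mul_inv_cancel_left]

/-- the invariant -/
def inv' (u : Fˣ × Fˣ) : F := (u.1 : F) * (u.2 : F)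

lemma inv_eq (h3 : ω ^ 3 = 1) {u v : Fˣ × Fˣ} (h : cl ω u = cl ω v) : inv' u = inv' v := by
  obtain ⟨k, -, rfl⟩ := cl_eq ω h3 h
  unfold inv'
  rw [zz_pow]
  simp only [Prod.fst_mul, Prod.snd_mul, Units.val_mul, Units.val_pow_eq_pow_val, inv_pow]
  have h : ((ω : F) ^ k) * (((ω ^ k)⁻¹ : Fˣ) : F) = 1 := by
    rw [← Units.val_pow_eq_pow_val, Units.mul_inv]
  linear_combination (-(u.1 : F) * u.2) * h

/-- the graph -/
def gr : SimpleGraph (QQ ω) where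
  Adj a b := a ≠ b ∧ ∃ u w, cl ω u = a ∧ cl ω w = b ∧ Bf u w = 0
  symm := by
    constructor
    rintro a b ⟨h, u, w, h1, h2, h3⟩
    exact ⟨h.symm, w, u, h2, h1, by rw [Bf_comm]; exact h3⟩
  loopless := by
    constructor
    rintro a ⟨h, -⟩
    exact h rfl

lemma adj_rep (h3 : ω ^ 3 = 1) {u : Fˣ × Fˣ} {b : QQ ω} (h : (gr ω).Adj (cl ω u) b) :
    ∃ w, cl ω w = b ∧ Bf u w = 0 := by
  obtain ⟨-, u', w, h1, h2, hB⟩ := h
  obtain ⟨k, -, rfl⟩ := cl_eq ω h3 h1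
  exact ⟨w * zz ω ^ k, by rw [cl_mul, h2], by rw [Bf_zz]; exact hB⟩

lemma cod (h3 : ω ^ 3 = 1) : Cod 3 (gr ω) := by
  classical
  intro a a' haa S hS
  obtain ⟨u, rfl⟩ := cl_surj ω a
  obtain ⟨v, rfl⟩ := cl_surj ω a'
  have key : ∀ x ∈ S, ∃ (w : Fˣ × Fˣ) (k : ℕ), k < 3 ∧ cl ω w = x ∧ Bf u w = 0 ∧
      Bf (v * zz ω ^ k) w = 0 := by
    intro x hx
    obtain ⟨w, hw, hB⟩ := adj_rep ω h3 (hS x hx).1
    obtain ⟨w', hw', hB'⟩ := adj_rep ω h3 (hS x hx).2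
    obtain ⟨k, hk, rfl⟩ := cl_eq ω h3 (hw'.trans hw.symm)
    exact ⟨_, k, hk, hw, hB, by rw [Bf_zz]; exact hB'⟩
  choose! w k hk hw hB hB' using key
  have : S.card ≤ (range 3).card := by
    apply Finset.card_le_card_of_injOn k
    · intro x hx
      exact mem_coe.2 (mem_range.2 (hk x hx))
    · intro x hx y hy hxy
      have hxy' : k x = k y := hxy
      have hne : u ≠ v * zz ω ^ k x := by
        intro h
        exact haa (by rw [h, cl_mul])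
      have := Bf_lin hne (hB x hx) (hB' x hx) (hB y hy) (by rw [hxy']; exact hB' y hy)
      rw [← hw x hx, ← hw y hy, this]
  simpa using this

end

section good

variable {F : Type} [Field F] (ω : Fˣ)

open Classical in
/-- the third point -/
noncomputable def sp (x₁ y₁ x₂ y₂ : Fˣ) : Fˣ × Fˣ :=
  if h : q0 (x₁ : F) y₁ x₂ y₂ ≠ 0 ∧ q1 (x₁ : F) y₁ x₂ y₂ ≠ 0 ∧ q2 (x₁ : F) y₁ x₂ y₂ ≠ 0 then
    (Units.mk0 _ h.2.1 / Units.mk0 _ h.1, Units.mk0 _ h.2.2 / Units.mk0 _ h.1) else 1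

open Classical in
/-- the common neighbours -/
noncomputable def wp (x₁ y₁ x₂ y₂ : Fˣ) (k : ℕ) : Fˣ × Fˣ :=
  if h : qa (ω : F) x₁ x₂ k ≠ 0 ∧ qb (ω : F) y₁ y₂ k ≠ 0 ∧ qc (ω : F) x₁ y₁ x₂ y₂ k ≠ 0 then
    (Units.mk0 _ h.1 / Units.mk0 _ h.2.2, Units.mk0 _ h.2.1 / Units.mk0 _ h.2.2) else 1

variable {ω} {x₁ y₁ x₂ y₂ : Fˣ} (hg : Good (ω : F) x₁ y₁ x₂ y₂)
include hg

lemma sp_fst : ((sp x₁ y₁ x₂ y₂).1 : F) = q1 (x₁ : F) y₁ x₂ y₂ / q0 (x₁ : F) y₁ x₂ y₂ := by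
  obtain ⟨-, -, -, h0, h1, h2, -⟩ := hg
  unfold sp
  rw [dif_pos ⟨h0, h1, h2⟩]
  simp

lemma sp_snd : ((sp x₁ y₁ x₂ y₂).2 : F) = q2 (x₁ : F) y₁ x₂ y₂ / q0 (x₁ : F) y₁ x₂ y₂ := by
  obtain ⟨-, -, -, h0, h1, h2, -⟩ := hg
  unfold sp
  rw [dif_pos ⟨h0, h1, h2⟩]
  simp

lemma wp_fst {k : ℕ} (hk : k < 3) : ((wp ω x₁ y₁ x₂ y₂ k).1 : F) =
    qa (ω : F) x₁ x₂ k / qc (ω : F) x₁ y₁ x₂ y₂ k := by
  obtain ⟨h0, h1, h2, -⟩ := hg
  unfold wp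
  rw [dif_pos ⟨h0 k hk, h1 k hk, h2 k hk⟩]
  simp

lemma wp_snd {k : ℕ} (hk : k < 3) : ((wp ω x₁ y₁ x₂ y₂ k).2 : F) =
    qb (ω : F) y₁ y₂ k / qc (ω : F) x₁ y₁ x₂ y₂ k := by
  obtain ⟨h0, h1, h2, -⟩ := hg
  unfold wp
  rw [dif_pos ⟨h0 k hk, h1 k hk, h2 k hk⟩]
  simp

lemma B_u {k : ℕ} (hk : k < 3) : Bf (x₁, y₁) (wp ω x₁ y₁ x₂ y₂ k) = 0 := by
  have hc : qc (ω : F) x₁ y₁ x₂ y₂ k ≠ 0 := hg.2.2.1 k hk
  unfold Bf
  rw [wp_fst hg hk, wp_snd hg hk]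
  have : qc (ω : F) x₁ y₁ x₂ y₂ k + x₁ * qb (ω : F) y₁ y₂ k + y₁ * qa (ω : F) x₁ x₂ k = 0 := by
    unfold qa qb qc; ring
  field_simp
  linear_combination this

lemma B_v (h3 : ω ^ 3 = 1) {k : ℕ} (hk : k < 3) :
    Bf ((x₂, y₂) * zz ω ^ k) (wp ω x₁ y₁ x₂ y₂ k) = 0 := by
  have hc : qc (ω : F) x₁ y₁ x₂ y₂ k ≠ 0 := hg.2.2.1 k hk
  have hinv : (ω⁻¹) ^ k = ω ^ (3 - k) := by
    rw [inv_pow, inv_eq_iff_mul_eq_one, ← pow_add, show k + (3 - k) = 3 by omega, h3]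
  unfold Bf
  rw [wp_fst hg hk, wp_snd hg hk, zz_pow, hinv]
  simp only [Prod.mk_mul_mk, Units.val_mul, Units.val_pow_eq_pow_val]
  have : qc (ω : F) x₁ y₁ x₂ y₂ k + (x₂ * (ω : F) ^ k) * qb (ω : F) y₁ y₂ k
      + (y₂ * (ω : F) ^ (3 - k)) * qa (ω : F) x₁ x₂ k = 0 := by
    unfold qa qb qc; ring
  field_simp
  linear_combination this

lemma B_s (h3 : ω ^ 3 = 1) {k : ℕ} (hk : k < 3) :
    Bf (sp x₁ y₁ x₂ y₂ * zz ω ^ (3 - k)) (wp ω x₁ y₁ x₂ y₂ k) = 0 := by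
  have hc : qc (ω : F) x₁ y₁ x₂ y₂ k ≠ 0 := hg.2.2.1 k hk
  have h0 : q0 (x₁ : F) y₁ x₂ y₂ ≠ 0 := hg.2.2.2.1
  have hinv : (ω⁻¹) ^ (3 - k) = ω ^ k := by
    rw [inv_pow, inv_eq_iff_mul_eq_one, ← pow_add, show 3 - k + k = 3 by omega, h3]
  have h3' : (ω : F) ^ 3 = 1 := by rw [← Units.val_pow_eq_pow_val, h3, Units.val_one]
  unfold Bf
  rw [wp_fst hg hk, wp_snd hg hk, zz_pow, hinv]
  simp only [Prod.fst_mul, Prod.snd_mul, Units.val_mul, Units.val_pow_eq_pow_val]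
  rw [sp_fst hg, sp_snd hg]
  have hab : ((ω : F) ^ k) ^ 2 = (ω : F) ^ (3 - k) ∧ ((ω : F) ^ (3 - k)) ^ 2 = (ω : F) ^ k := by
    have hcase : k = 0 ∨ k = 1 ∨ k = 2 := by omega
    rcases hcase with rfl | rfl | rfl
    · constructor
      · simp only [pow_zero, Nat.sub_zero]; rw [h3']; ring
      · simp only [pow_zero, Nat.sub_zero]; rw [h3']; ring
    · constructor
      · norm_num
      · norm_num
        linear_combination (ω : F) * h3'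
    · constructor
      · norm_num
        linear_combination (ω : F) * h3'
      · norm_num
  obtain ⟨hα, hβ⟩ := hab
  have : q0 (x₁ : F) y₁ x₂ y₂ * qc (ω : F) x₁ y₁ x₂ y₂ k
      + q1 (x₁ : F) y₁ x₂ y₂ * (ω : F) ^ (3 - k) * qb (ω : F) y₁ y₂ k
      + q2 (x₁ : F) y₁ x₂ y₂ * (ω : F) ^ k * qa (ω : F) x₁ x₂ k = 0 := by
    unfold qa qb qc q0 q1 q2
    generalize (ω : F) ^ k = α at *
    generalize (ω : F) ^ (3 - k) = β at *
    linear_combination ((x₁ : F) * x₂ * y₂ ^ 2 - x₂ ^ 2 * y₁ ^ 2) * hα +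
      ((x₁ : F) ^ 2 * y₂ ^ 2 - x₂ ^ 2 * y₁ * y₂) * hβ
  field_simp
  linear_combination this

end good

end Pool.Agent.K7.H24.KT
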