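import Mathlib
import Pool.Agent.K7.H24.KT.Plane

/-!
# Project KT, job PLANE, second part: counting
-/

set_option autoImplicit false

namespace Pool.Agent.K7.H24.KT

open Finset

section good

variable {F : Type} [Field F] {ω : Fˣ} {x₁ y₁ x₂ y₂ : Fˣ}

lemma inv_s (hg : Good (ω : F) x₁ y₁ x₂ y₂) : inv' (sp x₁ y₁ x₂ y₂) =
    q1 (x₁ : F) y₁ x₂ y₂ * q2 (x₁ : F) y₁ x₂ y₂ / q0 (x₁ : F) y₁ x₂ y₂ ^ 2 := by
  unfold inv'
  rw [sp_fst hg, sp_snd hg]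
  ring

lemma inv_w (hg : Good (ω : F) x₁ y₁ x₂ y₂) {k : ℕ} (hk : k < 3) :
    inv' (wp ω x₁ y₁ x₂ y₂ k) =
    qa (ω : F) x₁ x₂ k * qb (ω : F) y₁ y₂ k / qc (ω : F) x₁ y₁ x₂ y₂ k ^ 2 := by
  unfold inv'
  rw [wp_fst hg hk, wp_snd hg hk]
  ring

lemma uv_ne (hg : Good (ω : F) x₁ y₁ x₂ y₂) (h3 : ω ^ 3 = 1) :
    cl ω (x₁, y₁) ≠ cl ω (x₂, y₂) := by
  intro h
  have := inv_eq ω h3 h
  unfold inv' at this
  apply hg.2.2.2.1
  unfold q0
  simp only at this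
  rw [this, sub_self]

lemma us_ne (hg : Good (ω : F) x₁ y₁ x₂ y₂) (h3 : ω ^ 3 = 1) :
    cl ω (x₁, y₁) ≠ cl ω (sp x₁ y₁ x₂ y₂) := by
  intro h
  have h1 := inv_eq ω h3 h
  have h0 := hg.2.2.2.1
  rw [inv_s hg, eq_div_iff (pow_ne_zero 2 h0)] at h1
  unfold inv' at h1
  exact hg.2.2.2.2.2.2.2.2.2.1 h1.symm

lemma vs_ne (hg : Good (ω : F) x₁ y₁ x₂ y₂) (h3 : ω ^ 3 = 1) :
    cl ω (x₂, y₂) ≠ cl ω (sp x₁ y₁ x₂ y₂) := by
  intro h
  have h1 := inv_eq ω h3 h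
  have h0 := hg.2.2.2.1
  rw [inv_s hg, eq_div_iff (pow_ne_zero 2 h0)] at h1
  unfold inv' at h1
  exact hg.2.2.2.2.2.2.2.2.2.2.1 h1.symm

lemma uw_ne (hg : Good (ω : F) x₁ y₁ x₂ y₂) (h3 : ω ^ 3 = 1) {k : ℕ} (hk : k < 3) :
    cl ω (x₁, y₁) ≠ cl ω (wp ω x₁ y₁ x₂ y₂ k) := by
  intro h
  have h1 := inv_eq ω h3 h
  have h0 := hg.2.2.1 k hk
  rw [inv_w hg hk, eq_div_iff (pow_ne_zero 2 h0)] at h1
  unfold inv' at h1
  exact hg.2.2.2.2.2.2.2.1 k hk h1.symm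

lemma vw_ne (hg : Good (ω : F) x₁ y₁ x₂ y₂) (h3 : ω ^ 3 = 1) {k : ℕ} (hk : k < 3) :
    cl ω (x₂, y₂) ≠ cl ω (wp ω x₁ y₁ x₂ y₂ k) := by
  intro h
  have h1 := inv_eq ω h3 h
  have h0 := hg.2.2.1 k hk
  rw [inv_w hg hk, eq_div_iff (pow_ne_zero 2 h0)] at h1
  unfold inv' at h1
  exact hg.2.2.2.2.2.2.2.2.1 k hk h1.symm

lemma sw_ne (hg : Good (ω : F) x₁ y₁ x₂ y₂) (h3 : ω ^ 3 = 1) {k : ℕ} (hk : k < 3) :
    cl ω (sp x₁ y₁ x₂ y₂) ≠ cl ω (wp ω x₁ y₁ x₂ y₂ k) := by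
  intro h
  have h1 := inv_eq ω h3 h
  have h0 := hg.2.2.1 k hk
  have h0' := hg.2.2.2.1
  rw [inv_w hg hk, inv_s hg, div_eq_div_iff (pow_ne_zero 2 h0') (pow_ne_zero 2 h0)] at h1
  exact hg.2.2.2.2.2.2.2.2.2.2.2 k hk h1

lemma ww_ne (hg : Good (ω : F) x₁ y₁ x₂ y₂) (h3 : ω ^ 3 = 1) {k l : ℕ} (hk : k < 3)
    (hl : l < k) : cl ω (wp ω x₁ y₁ x₂ y₂ k) ≠ cl ω (wp ω x₁ y₁ x₂ y₂ l) := by
  intro h
  have h1 := inv_eq ω h3 h
  have hl3 : l < 3 := by omega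
  have h0 := hg.2.2.1 k hk
  have h0' := hg.2.2.1 l hl3
  rw [inv_w hg hk, inv_w hg hl3, div_eq_div_iff (pow_ne_zero 2 h0) (pow_ne_zero 2 h0')] at h1
  exact hg.2.2.2.2.2.2.1 k hk l hl h1

open Classical in
/-- the biclique of a pair -/
noncomputable def bic (ω : Fˣ) (q : Fˣ × Fˣ × Fˣ × Fˣ) : Finset (QQ ω) × Finset (QQ ω) :=
  ({cl ω (q.1, q.2.1), cl ω (q.2.2.1, q.2.2.2), cl ω (sp q.1 q.2.1 q.2.2.1 q.2.2.2)},
   {cl ω (wp ω q.1 q.2.1 q.2.2.1 q.2.2.2 2), cl ω (wp ω q.1 q.2.1 q.2.2.1 q.2.2.2 1),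
    cl ω (wp ω q.1 q.2.1 q.2.2.1 q.2.2.2 0)})

lemma isBi (h3 : ω ^ 3 = 1) (q : Fˣ × Fˣ × Fˣ × Fˣ)
    (hg : Good (ω : F) (q.1 : F) (q.2.1 : F) (q.2.2.1 : F) (q.2.2.2 : F)) :
    IsBi 3 (gr ω) (bic ω q) := by
  classical
  obtain ⟨x₁, y₁, x₂, y₂⟩ := q
  simp only at hg
  refine ⟨?_, ?_, ?_⟩
  · rw [Finset.card_eq_three]
    exact ⟨_, _, _, uv_ne hg h3, us_ne hg h3, vs_ne hg h3, by simp [bic]⟩
  · rw [Finset.card_eq_three]
    exact ⟨_, _, _, ww_ne (k := 2) (l := 1) hg h3 (by norm_num) (by norm_num),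
      ww_ne (k := 2) (l := 0) hg h3 (by norm_num) (by norm_num),
      ww_ne (k := 1) (l := 0) hg h3 (by norm_num) (by norm_num),
      by simp [bic]⟩
  · have key : ∀ k < 3, ∀ a ∈ (bic ω (x₁, y₁, x₂, y₂)).1,
        (gr ω).Adj a (cl ω (wp ω x₁ y₁ x₂ y₂ k)) := by
      intro k hk a ha
      simp only [bic, mem_insert, mem_singleton] at ha
      rcases ha with rfl | rfl | rfl
      · exact ⟨uw_ne hg h3 hk, _, _, rfl, rfl, B_u hg hk⟩
      · exact ⟨vw_ne hg h3 hk, _, _, cl_mul ω _ k, rfl, B_v hg h3 hk⟩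
      · exact ⟨sw_ne hg h3 hk, _, _, cl_mul ω _ (3 - k), rfl, B_s hg h3 hk⟩
    intro a ha b hb
    simp only [bic, mem_insert, mem_singleton] at hb
    rcases hb with rfl | rfl | rfl
    · exact key 2 (by norm_num) a ha
    · exact key 1 (by norm_num) a ha
    · exact key 0 (by norm_num) a ha

end good

section count

variable {F : Type} [Field F] [Fintype F] (ω : Fˣ)

noncomputable instance : Fintype (QQ ω) := by
  classical exact Fintype.ofFinite _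

open Classical in
lemma card_fib (h3 : ω ^ 3 = 1) (a : QQ ω) :
    ((univ : Finset (Fˣ × Fˣ)).filter (fun u => cl ω u = a)).card ≤ 3 := by
  obtain ⟨u, rfl⟩ := cl_surj ω a
  calc ((univ : Finset (Fˣ × Fˣ)).filter (fun v => cl ω v = cl ω u)).card
      ≤ ((range 3).image (fun k => u * zz ω ^ k)).card := by
        apply card_le_card
        intro v hv
        obtain ⟨k, hk, rfl⟩ := cl_eq ω h3 (mem_filter.1 hv).2.symm
        exact mem_image.2 ⟨k, mem_range.2 hk, rfl⟩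
    _ ≤ 3 := card_image_le.trans (by simp)

open Classical in
lemma card_fib2 (h3 : ω ^ 3 = 1) (P : Finset (QQ ω) × Finset (QQ ω)) (hP : P.1.card = 3)
    (S : Finset (Fˣ × Fˣ × Fˣ × Fˣ)) (hS : ∀ q ∈ S, Good (ω : F) (q.1 : F) (q.2.1 : F)
      (q.2.2.1 : F) (q.2.2.2 : F)) :
    (S.filter (fun q => bic ω q = P)).card ≤ 54 := by
  have h1 : S.filter (fun q => bic ω q = P) ⊆ (P.1.offDiag).biUnion (fun d =>
      (((univ : Finset (Fˣ × Fˣ)).filter (fun u => cl ω u = d.1)) ×ˢ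
        ((univ : Finset (Fˣ × Fˣ)).filter (fun u => cl ω u = d.2))).image
          (fun z => (z.1.1, z.1.2, z.2.1, z.2.2))) := by
    intro q hq
    obtain ⟨hqS, rfl⟩ := mem_filter.1 hq
    have hg := hS q hqS
    obtain ⟨x₁, y₁, x₂, y₂⟩ := q
    simp only at hg
    rw [mem_biUnion]
    refine ⟨(cl ω (x₁, y₁), cl ω (x₂, y₂)), ?_, ?_⟩
    · rw [mem_offDiag]
      exact ⟨by simp [bic], by simp [bic], uv_ne hg h3⟩
    · rw [mem_image]
      exact ⟨((x₁, y₁), (x₂, y₂)), by simp, rfl⟩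
  calc (S.filter (fun q => bic ω q = P)).card ≤ _ := card_le_card h1
    _ ≤ (P.1.offDiag).card * 9 := by
      apply card_biUnion_le_card_mul
      intro d _
      refine card_image_le.trans ?_
      rw [card_product]
      exact Nat.mul_le_mul (card_fib ω h3 d.1) (card_fib ω h3 d.2)
    _ = 54 := by rw [offDiag_card, hP]

open Classical in
lemma count (hB : StBad) (h3 : ω ^ 3 = 1) (h1 : ω ≠ 1) :
    (Nat.card Fˣ) ^ 4 ≤ 54 * bi 3 (gr ω) + 100 * Fintype.card F ^ 3 := by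
  rw [Nat.card_eq_fintype_card]
  have hw3 : (ω : F) ^ 3 = 1 := by rw [← Units.val_pow_eq_pow_val, h3, Units.val_one]
  have hw1 : (ω : F) ≠ 1 := by
    intro h; exact h1 (Units.ext (by rw [h, Units.val_one]))
  have hw : (ω : F) ^ 2 + ω + 1 = 0 := by
    have : ((ω : F) - 1) * ((ω : F) ^ 2 + ω + 1) = 0 := by linear_combination hw3
    exact (mul_eq_zero.1 this).resolve_left (sub_ne_zero.2 hw1)
  set G := (univ : Finset (Fˣ × Fˣ × Fˣ × Fˣ)).filter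
    (fun q => Good (ω : F) (q.1 : F) (q.2.1 : F) (q.2.2.1 : F) (q.2.2.2 : F)) with hG
  set Bd := (univ : Finset (Fˣ × Fˣ × Fˣ × Fˣ)).filter
    (fun q => ¬ Good (ω : F) (q.1 : F) (q.2.1 : F) (q.2.2.1 : F) (q.2.2.2 : F)) with hBd
  have hbad : Bd.card ≤ 100 * Fintype.card F ^ 3 :=
    hB F (ω : F) hw hw1 Bd (fun q hq => (mem_filter.1 hq).2)
  have htot : G.card + Bd.card = (Fintype.card Fˣ) ^ 4 := by
    rw [hG, hBd, card_filter_add_card_filter_not, card_univ]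
    simp only [Fintype.card_prod]
    ring
  have hgood : G.card ≤ 54 * bi 3 (gr ω) := by
    unfold bi
    apply card_le_mul_card_image_of_maps_to (f := bic ω)
    · intro q hq
      rw [mem_filter]
      exact ⟨mem_univ _, isBi h3 q (mem_filter.1 hq).2⟩
    · intro P hP
      exact card_fib2 ω h3 P (mem_filter.1 hP).2.1 G (fun q hq => (mem_filter.1 hq).2)
  omega

end count

/-- PLANE, given BAD -/
theorem plane (hB : StBad) : StPlane := by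
  classical
  intro p hp hp3
  have := Fact.mk hp
  have hcard : Fintype.card (ZMod p)ˣ = p - 1 := ZMod.card_units p
  obtain ⟨ω, hω⟩ : ∃ ω : (ZMod p)ˣ, orderOf ω = 3 := by
    have : Fact (Nat.Prime 3) := ⟨Nat.prime_three⟩
    apply exists_prime_orderOf_dvd_card
    rw [hcard]; omega
  have h3 : ω ^ 3 = 1 := by rw [← hω]; exact pow_orderOf_eq_one ω
  have h1 : ω ≠ 1 := by
    rintro rfl
    simp at hω
  refine ⟨QQ ω, inferInstance, gr ω, ?_, cod ω h3, ?_⟩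
  · have h := Subgroup.card_eq_card_quotient_mul_card_subgroup (Subgroup.zpowers (zz ω))
    have hz : orderOf (zz ω) = 3 := by
      have : zz ω ^ 3 = 1 := zz_three ω h3
      have h' := orderOf_dvd_of_pow_eq_one this
      rcases (Nat.dvd_prime Nat.prime_three).1 h' with h'' | h''
      · exfalso
        rw [orderOf_eq_one_iff] at h''
        have := congrArg Prod.fst h''
        exact h1 this
      · exact h''
    rw [Nat.card_zpowers, hz, Nat.card_eq_fintype_card, Nat.card_eq_fintype_card,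
      Fintype.card_prod, hcard] at h
    have h2 : (p - 1) * (p - 1) = (p - 1) ^ 2 := by ring
    rw [← h2, h, mul_comm]
  · have := count ω hB h3 h1
    rw [Nat.card_eq_fintype_card, hcard, ZMod.card] at this
    exact this

end Pool.Agent.K7.H24.KT
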